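import Pool.Agent.SNS.Tp

/-!
# SNS, module Sh (helper22): the search in `Z_2 × Z_10`, `Z_2 × Z_14`
-/

set_option autoImplicit false

noncomputable section

open Finset Pool.Agent.Helper64.Rho Pool.Agent.SDG
open scoped Classical Pointwise

namespace Pool.Agent.SNS

/-- one element of every pair `{x, -x}` -/
def X2_10 : List (ZMod 2 × ZMod 10) :=
  [(0, 1), (0, 2), (0, 3), (0, 4), (1, 1), (1, 2), (1, 3), (1, 4)]

/-- the translations by the elements of `X` -/
def L2_10 : List Tab :=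
  [[(524800, 0, 9), (523775, 1, 0)],
   [(787200, 0, 8), (261375, 2, 0)],
   [(918400, 0, 7), (130175, 3, 0)],
   [(984000, 0, 6), (64575, 4, 0)],
   [(524288, 0, 19), (523264, 0, 9), (512, 1, 0), (511, 11, 0)],
   [(786432, 0, 18), (261120, 0, 8), (768, 2, 0), (255, 12, 0)],
   [(917504, 0, 17), (130048, 0, 7), (896, 3, 0), (127, 13, 0)],
   [(983040, 0, 16), (64512, 0, 6), (960, 4, 0), (63, 14, 0)]]

/-- one generator of every subgroup of prime order -/
def Y2_10 : List (ZMod 2 × ZMod 10) :=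
  [(0, 2), (0, 5), (1, 0), (1, 5)]

/-- the translations by the elements of `Y` -/
def P2_10 : List Tab :=
  [[(787200, 0, 8), (261375, 2, 0)],
   [(1016800, 0, 5), (31775, 5, 0)],
   [(1047552, 0, 10), (1023, 10, 0)],
   [(1015808, 0, 15), (31744, 0, 5), (992, 5, 0), (31, 15, 0)]]

/-- one element of every pair `{x, -x}` -/
def X2_14 : List (ZMod 2 × ZMod 14) :=
  [(0, 1), (0, 2), (0, 3), (0, 4), (0, 5), (0, 6), (1, 1), (1, 2), (1, 3), (1, 4), (1, 5), (1, 6)]

/-- the translations by the elements of `X` -/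
def L2_14 : List Tab :=
  [[(134225920, 0, 13), (134209535, 1, 0)],
   [(201338880, 0, 12), (67096575, 2, 0)],
   [(234895360, 0, 11), (33540095, 3, 0)],
   [(251673600, 0, 10), (16761855, 4, 0)],
   [(260062720, 0, 9), (8372735, 5, 0)],
   [(264257280, 0, 8), (4178175, 6, 0)],
   [(134217728, 0, 27), (134201344, 0, 13), (8192, 1, 0), (8191, 15, 0)],
   [(201326592, 0, 26), (67092480, 0, 12), (12288, 2, 0), (4095, 16, 0)],
   [(234881024, 0, 25), (33538048, 0, 11), (14336, 3, 0), (2047, 17, 0)],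
   [(251658240, 0, 24), (16760832, 0, 10), (15360, 4, 0), (1023, 18, 0)],
   [(260046848, 0, 23), (8372224, 0, 9), (15872, 5, 0), (511, 19, 0)],
   [(264241152, 0, 22), (4177920, 0, 8), (16128, 6, 0), (255, 20, 0)]]

/-- one generator of every subgroup of prime order -/
def Y2_14 : List (ZMod 2 × ZMod 14) :=
  [(0, 2), (0, 7), (1, 0), (1, 7)]

/-- the translations by the elements of `Y` -/
def P2_14 : List Tab :=
  [[(201338880, 0, 12), (67096575, 2, 0)],
   [(266354560, 0, 7), (2080895, 7, 0)],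
   [(268419072, 0, 14), (16383, 14, 0)],
   [(266338304, 0, 21), (2080768, 0, 7), (16256, 7, 0), (127, 21, 0)]]

theorem chk_X2_10 : List.Forall₂ (TK 2 10) X2_10 L2_10 := by decide +kernel

theorem chk_Y2_10 : List.Forall₂ (TK 2 10) Y2_10 P2_10 := by decide +kernel

theorem chk_Z2_10 : ∀ y ∈ Y2_10, y ≠ 0 := by decide +kernel

theorem chk_C2_10 : ∀ g : ZMod 2 × ZMod 10, g ≠ 0 → g ≠ -g →
    ∃ x ∈ X2_10, g = x ∨ g = -x := by decide +kernel

theorem chk_X2_14 : List.Forall₂ (TK 2 14) X2_14 L2_14 := by decide +kernel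

theorem chk_Y2_14 : List.Forall₂ (TK 2 14) Y2_14 P2_14 := by decide +kernel

theorem chk_Z2_14 : ∀ y ∈ Y2_14, y ≠ 0 := by decide +kernel

theorem chk_C2_14 : ∀ g : ZMod 2 × ZMod 14, g ≠ 0 → g ≠ -g →
    ∃ x ∈ X2_14, g = x ∨ g = -x := by decide +kernel

theorem run_2_10_7 : dfs (2 * 10) 7 17 17 P2_10 L2_10 1 0 = true := by decide +kernel

theorem run_2_14_7 : dfs (2 * 14) 7 17 17 P2_14 L2_14 1 0 = true := by decide +kernel

theorem run_2_14_8 : dfs (2 * 14) 8 21 21 P2_14 L2_14 1 0 = true := by decide +kernel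

theorem no_2_10_7 (G : Type) [AddCommGroup G] [Finite G] (e' : G ≃+ ZMod 2 × ZMod 10)
    (A : Finset G) (h0 : (0 : G) ∉ A) (hA : Aper (FS A id)) (hc : A.card = 7) :
    (FS A id).card ≠ 17 := fun h =>
  tp_main e' 7 17 17 chk_X2_10 chk_Y2_10 chk_Z2_10 chk_C2_10 run_2_10_7 A h0 hA hc
    ⟨h.ge, h.le⟩

theorem no_2_14_7 (G : Type) [AddCommGroup G] [Finite G] (e' : G ≃+ ZMod 2 × ZMod 14)
    (A : Finset G) (h0 : (0 : G) ∉ A) (hA : Aper (FS A id)) (hc : A.card = 7) :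
    (FS A id).card ≠ 17 := fun h =>
  tp_main e' 7 17 17 chk_X2_14 chk_Y2_14 chk_Z2_14 chk_C2_14 run_2_14_7 A h0 hA hc
    ⟨h.ge, h.le⟩

theorem no_2_14_8 (G : Type) [AddCommGroup G] [Finite G] (e' : G ≃+ ZMod 2 × ZMod 14)
    (A : Finset G) (h0 : (0 : G) ∉ A) (hA : Aper (FS A id)) (hc : A.card = 8) :
    (FS A id).card ≠ 21 := fun h =>
  tp_main e' 8 21 21 chk_X2_14 chk_Y2_14 chk_Z2_14 chk_C2_14 run_2_14_8 A h0 hA hc
    ⟨h.ge, h.le⟩

end Pool.Agent.SNS
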