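import Pool.Agent.SNS.Tp
import Pool.Agent.SNW.Up1
import Pool.Agent.SNG.All

/-!
# SNS, module Sx (helper22): the small noncyclic groups

`ex_a_b`: the sporadic sets (all elements but one are sums) in `Z_2 × Z_4`, `Z_3 × Z_3`, `Z_4 × Z_4`, `Z_3 × Z_6`, `Z_4 × Z_8`.
`no_a_b_t`: excluded values of `|FS A|`, `|A| = t`.
-/

set_option autoImplicit false

noncomputable section

open Finset Pool.Agent.Helper64.Rho Pool.Agent.SDG Pool.Agent.SNW
open scoped Classical Pointwise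

namespace Pool.Agent.SNS

/-- an example in `Z_2 × Z_4` -/
def Z2_4 : List (ZMod 2 × ZMod 4) := [(0, 1), (0, 3), (1, 1), (1, 3)]

/-- its translations -/
def W2_4 : List Tab :=
  [[(136, 0, 3), (119, 1, 0)],
   [(238, 0, 1), (17, 3, 0)],
   [(128, 0, 7), (112, 0, 3), (8, 1, 0), (7, 5, 0)],
   [(224, 0, 5), (16, 0, 1), (14, 3, 0), (1, 7, 0)]]

/-- an example in `Z_3 × Z_3` -/
def Z3_3 : List (ZMod 3 × ZMod 3) := [(1, 0), (0, 1), (1, 1), (2, 1)]

/-- its translations -/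
def W3_3 : List Tab :=
  [[(448, 0, 6), (63, 3, 0)],
   [(292, 0, 2), (219, 1, 0)],
   [(256, 0, 8), (192, 0, 5), (36, 1, 0), (27, 4, 0)],
   [(288, 0, 5), (216, 0, 2), (4, 4, 0), (3, 7, 0)]]

/-- an example in `Z_4 × Z_4` -/
def Z4_4 : List (ZMod 4 × ZMod 4) := [(1, 1), (3, 3), (3, 1), (1, 3), (1, 2), (3, 2)]

/-- its translations -/
def W4_4 : List Tab :=
  [[(32768, 0, 15), (28672, 0, 11), (2184, 1, 0), (1911, 5, 0)],
   [(61152, 0, 5), (4368, 0, 1), (14, 11, 0), (1, 15, 0)],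
   [(34944, 0, 7), (30576, 0, 3), (8, 9, 0), (7, 13, 0)],
   [(57344, 0, 13), (4096, 0, 9), (3822, 3, 0), (273, 7, 0)],
   [(49152, 0, 14), (12288, 0, 10), (3276, 2, 0), (819, 6, 0)],
   [(52416, 0, 6), (13104, 0, 2), (12, 10, 0), (3, 14, 0)]]

/-- an example in `Z_3 × Z_6` -/
def Z3_6 : List (ZMod 3 × ZMod 6) := [(1, 1), (2, 5), (2, 1), (1, 5), (0, 2), (1, 3), (2, 3)]

/-- its translations -/
def W3_6 : List Tab :=
  [[(131072, 0, 17), (126976, 0, 11), (2080, 1, 0), (2015, 7, 0)],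
   [(257920, 0, 7), (4160, 0, 1), (62, 11, 0), (1, 17, 0)],
   [(133120, 0, 11), (128960, 0, 5), (32, 7, 0), (31, 13, 0)],
   [(253952, 0, 13), (4096, 0, 7), (4030, 5, 0), (65, 11, 0)],
   [(199728, 0, 4), (62415, 2, 0)],
   [(229376, 0, 15), (28672, 0, 9), (3640, 3, 0), (455, 9, 0)],
   [(232960, 0, 9), (29120, 0, 3), (56, 9, 0), (7, 15, 0)]]

/-- an example in `Z_4 × Z_8` -/
def Z4_8 : List (ZMod 4 × ZMod 8) := [(2, 1), (2, 7), (3, 1), (1, 7), (1, 2), (3, 6), (0, 3), (0, 5), (3, 3), (1, 5)]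

/-- its translations -/
def W4_8 : List Tab :=
  [[(2155872256, 0, 23), (2139029504, 0, 15), (32896, 9, 0), (32639, 17, 0)],
   [(4278059008, 0, 17), (16842752, 0, 9), (65278, 15, 0), (257, 23, 0)],
   [(2155905024, 0, 15), (2139062016, 0, 7), (128, 17, 0), (127, 25, 0)],
   [(4261412864, 0, 25), (16777216, 0, 17), (16711422, 7, 0), (65793, 15, 0)],
   [(3221225472, 0, 30), (1056964608, 0, 22), (12632256, 2, 0), (4144959, 10, 0)],
   [(4244438016, 0, 10), (50529024, 0, 2), (252, 22, 0), (3, 30, 0)],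
   [(3772834016, 0, 5), (522133279, 3, 0)],
   [(4177066232, 0, 3), (117901063, 5, 0)],
   [(3772833792, 0, 13), (522133248, 0, 5), (224, 19, 0), (31, 27, 0)],
   [(4160749568, 0, 27), (117440512, 0, 19), (16316664, 5, 0), (460551, 13, 0)]]

theorem ckz_2_4 : List.Forall₂ (TK 2 4) Z2_4 W2_4 := by decide +kernel

theorem ckn_2_4 : Z2_4.Nodup := by decide +kernel

theorem ck0_2_4 : (0 : ZMod 2 × ZMod 4) ∉ Z2_4 := by decide +kernel

theorem ckv_2_4 : pc (2 * 4) (sq W2_4 1) = 7 := by decide +kernel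

/-- sporadic set: `4` elements, `7` sums in `Z_2 × Z_4` -/
theorem ex_2_4 (G : Type) [AddCommGroup G] [Finite G] (e' : G ≃+ ZMod 2 × ZMod 4) :
    ∃ A : Finset G, (0 : G) ∉ A ∧ A.card = 4 ∧ AddSubgroup.closure (A : Set G) = ⊤ ∧
      (FS A id).card = 7 :=
  tp_ex e' 7 Z2_4 W2_4 ckz_2_4 ckn_2_4 ck0_2_4 ckv_2_4 (by norm_num)

theorem ckz_3_3 : List.Forall₂ (TK 3 3) Z3_3 W3_3 := by decide +kernel

theorem ckn_3_3 : Z3_3.Nodup := by decide +kernel

theorem ck0_3_3 : (0 : ZMod 3 × ZMod 3) ∉ Z3_3 := by decide +kernel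

theorem ckv_3_3 : pc (3 * 3) (sq W3_3 1) = 8 := by decide +kernel

/-- sporadic set: `4` elements, `8` sums in `Z_3 × Z_3` -/
theorem ex_3_3 (G : Type) [AddCommGroup G] [Finite G] (e' : G ≃+ ZMod 3 × ZMod 3) :
    ∃ A : Finset G, (0 : G) ∉ A ∧ A.card = 4 ∧ AddSubgroup.closure (A : Set G) = ⊤ ∧
      (FS A id).card = 8 :=
  tp_ex e' 8 Z3_3 W3_3 ckz_3_3 ckn_3_3 ck0_3_3 ckv_3_3 (by norm_num)

theorem ckz_4_4 : List.Forall₂ (TK 4 4) Z4_4 W4_4 := by decide +kernel

theorem ckn_4_4 : Z4_4.Nodup := by decide +kernel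

theorem ck0_4_4 : (0 : ZMod 4 × ZMod 4) ∉ Z4_4 := by decide +kernel

theorem ckv_4_4 : pc (4 * 4) (sq W4_4 1) = 15 := by decide +kernel

/-- sporadic set: `6` elements, `15` sums in `Z_4 × Z_4` -/
theorem ex_4_4 (G : Type) [AddCommGroup G] [Finite G] (e' : G ≃+ ZMod 4 × ZMod 4) :
    ∃ A : Finset G, (0 : G) ∉ A ∧ A.card = 6 ∧ AddSubgroup.closure (A : Set G) = ⊤ ∧
      (FS A id).card = 15 :=
  tp_ex e' 15 Z4_4 W4_4 ckz_4_4 ckn_4_4 ck0_4_4 ckv_4_4 (by norm_num)

theorem ckz_3_6 : List.Forall₂ (TK 3 6) Z3_6 W3_6 := by decide +kernel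

theorem ckn_3_6 : Z3_6.Nodup := by decide +kernel

theorem ck0_3_6 : (0 : ZMod 3 × ZMod 6) ∉ Z3_6 := by decide +kernel

theorem ckv_3_6 : pc (3 * 6) (sq W3_6 1) = 17 := by decide +kernel

/-- sporadic set: `7` elements, `17` sums in `Z_3 × Z_6` -/
theorem ex_3_6 (G : Type) [AddCommGroup G] [Finite G] (e' : G ≃+ ZMod 3 × ZMod 6) :
    ∃ A : Finset G, (0 : G) ∉ A ∧ A.card = 7 ∧ AddSubgroup.closure (A : Set G) = ⊤ ∧
      (FS A id).card = 17 :=
  tp_ex e' 17 Z3_6 W3_6 ckz_3_6 ckn_3_6 ck0_3_6 ckv_3_6 (by norm_num)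

theorem ckz_4_8 : List.Forall₂ (TK 4 8) Z4_8 W4_8 := by decide +kernel

theorem ckn_4_8 : Z4_8.Nodup := by decide +kernel

theorem ck0_4_8 : (0 : ZMod 4 × ZMod 8) ∉ Z4_8 := by decide +kernel

theorem ckv_4_8 : pc (4 * 8) (sq W4_8 1) = 31 := by decide +kernel

/-- sporadic set: `10` elements, `31` sums in `Z_4 × Z_8` -/
theorem ex_4_8 (G : Type) [AddCommGroup G] [Finite G] (e' : G ≃+ ZMod 4 × ZMod 8) :
    ∃ A : Finset G, (0 : G) ∉ A ∧ A.card = 10 ∧ AddSubgroup.closure (A : Set G) = ⊤ ∧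
      (FS A id).card = 31 :=
  tp_ex e' 31 Z4_8 W4_8 ckz_4_8 ckn_4_8 ck0_4_8 ckv_4_8 (by norm_num)

/-- `Z_3 × Z_3`, `4` elements: not `7 ≤ |FS A| ≤ 7` -/
theorem no_3_3_4 (G : Type) [AddCommGroup G] [Finite G] (e' : G ≃+ ZMod 3 × ZMod 3)
    (A : Finset G) (h0 : (0 : G) ∉ A) (hA : Aper (FS A id)) (hc : A.card = 4) :
    ¬ (7 ≤ (FS A id).card ∧ (FS A id).card ≤ 7) :=
  tp_main e' 4 7 7 chk_X3_3 chk_Y3_3 chk_Z3_3 chk_C3_3 run_3_3_4 A h0 hA hc

/-- `Z_4 × Z_4`, `5` elements: not `10 ≤ |FS A| ≤ 11` -/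
theorem no_4_4_5 (G : Type) [AddCommGroup G] [Finite G] (e' : G ≃+ ZMod 4 × ZMod 4)
    (A : Finset G) (h0 : (0 : G) ∉ A) (hA : Aper (FS A id)) (hc : A.card = 5) :
    ¬ (10 ≤ (FS A id).card ∧ (FS A id).card ≤ 11) :=
  tp_main e' 5 10 11 chk_X4_4 chk_Y4_4 chk_Z4_4 chk_C4_4 run_4_4_5 A h0 hA hc

/-- `Z_4 × Z_4`, `6` elements: not `13 ≤ |FS A| ≤ 14` -/
theorem no_4_4_6 (G : Type) [AddCommGroup G] [Finite G] (e' : G ≃+ ZMod 4 × ZMod 4)
    (A : Finset G) (h0 : (0 : G) ∉ A) (hA : Aper (FS A id)) (hc : A.card = 6) :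
    ¬ (13 ≤ (FS A id).card ∧ (FS A id).card ≤ 14) :=
  tp_main e' 6 13 14 chk_X4_4 chk_Y4_4 chk_Z4_4 chk_C4_4 run_4_4_6 A h0 hA hc

/-- `Z_2 × Z_8`, `6` elements: not `13 ≤ |FS A| ≤ 13` -/
theorem no_2_8_6 (G : Type) [AddCommGroup G] [Finite G] (e' : G ≃+ ZMod 2 × ZMod 8)
    (A : Finset G) (h0 : (0 : G) ∉ A) (hA : Aper (FS A id)) (hc : A.card = 6) :
    ¬ (13 ≤ (FS A id).card ∧ (FS A id).card ≤ 13) :=
  tp_main e' 6 13 13 chk_X2_8 chk_Y2_8 chk_Z2_8 chk_C2_8 run_2_8_6 A h0 hA hc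

/-- `Z_2 × Z_16`, `10` elements: not `31 ≤ |FS A| ≤ 31` -/
theorem no_2_16_10 (G : Type) [AddCommGroup G] [Finite G] (e' : G ≃+ ZMod 2 × ZMod 16)
    (A : Finset G) (h0 : (0 : G) ∉ A) (hA : Aper (FS A id)) (hc : A.card = 10) :
    ¬ (31 ≤ (FS A id).card ∧ (FS A id).card ≤ 31) :=
  tp_main e' 10 31 31 chk_X2_16 chk_Y2_16 chk_Z2_16 chk_C2_16 run_2_16_10 A h0 hA hc

/-! ### groups with two generators -/

/-- a group with two generators is `Z_d × Z_e` with `d ∣ e` -/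
theorem pair_iso (G : Type) [AddCommGroup G] [Finite G] (a b : G)
    (h : AddSubgroup.closure {a, b} = ⊤) :
    ∃ d e : ℕ, 0 < d ∧ 0 < e ∧ d ∣ e ∧ e = AddMonoid.exponent G ∧ d * e = Nat.card G ∧
      Nonempty (G ≃+ ZMod d × ZMod e) := by
  obtain ⟨x, y, hxy, hox, hoy, hind⟩ := pair_basis G a b h
  refine ⟨addOrderOf y, addOrderOf x, addOrderOf_pos _, addOrderOf_pos _, ?_, hox, ?_, ?_⟩
  · rw [hox]
    exact AddMonoid.addOrder_dvd_exponent y
  · rw [mul_comm]
    exact hoy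
  · have : NeZero (addOrderOf x) := ⟨(addOrderOf_pos x).ne'⟩
    have : NeZero (addOrderOf y) := ⟨(addOrderOf_pos y).ne'⟩
    let φy : ZMod (addOrderOf y) →+ G := ZMod.lift (addOrderOf y) ⟨zmultiplesHom G y, by simp⟩
    let φx : ZMod (addOrderOf x) →+ G := ZMod.lift (addOrderOf x) ⟨zmultiplesHom G x, by simp⟩
    have hφy : ∀ k : ℤ, φy (k : ZMod (addOrderOf y)) = k • y := fun k => by
      simp [φy]
    have hφx : ∀ k : ℤ, φx (k : ZMod (addOrderOf x)) = k • x := fun k => by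
      simp [φx]
    let ψ : ZMod (addOrderOf y) × ZMod (addOrderOf x) →+ G := AddMonoidHom.coprod φy φx
    have hinj : Function.Injective ψ := by
      rw [injective_iff_map_eq_zero]
      rintro ⟨u, v⟩ huv
      obtain ⟨i, rfl⟩ := ZMod.intCast_surjective u
      obtain ⟨j, rfl⟩ := ZMod.intCast_surjective v
      have h1 : j • x + i • y = 0 := by
        rw [← hφx, ← hφy, add_comm]
        exact huv
      obtain ⟨h2, h3⟩ := hind j i h1
      rw [Prod.mk_eq_zero]
      refine ⟨?_, ?_⟩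
      · rw [ZMod.intCast_zmod_eq_zero_iff_dvd]
        exact addOrderOf_dvd_iff_zsmul_eq_zero.2 h3
      · rw [ZMod.intCast_zmod_eq_zero_iff_dvd]
        exact addOrderOf_dvd_iff_zsmul_eq_zero.2 h2
    have hcard : Nat.card (ZMod (addOrderOf y) × ZMod (addOrderOf x)) = Nat.card G := by
      rw [Nat.card_prod, Nat.card_zmod, Nat.card_zmod, mul_comm]
      exact hoy
    have hbij : Function.Bijective ψ := by
      rw [Nat.bijective_iff_injective_and_card]
      exact ⟨hinj, hcard⟩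
    exact ⟨(AddEquiv.ofBijective ψ hbij).symm⟩

/-! ### `M1P` below the almost full range -/

/-- all `lam ≤ J - 1`, the complement is large: a member lies in a small subgroup -/
theorem sub2 {G ι : Type} [AddCommGroup G] [Finite G] (s : Finset ι)
    (f : ι → G) (J : ℕ) (h0 : ∀ i ∈ s, f i ≠ 0) (hC : Cap 2 s f) (hA : Aper (FS s f))
    (hgen : gen s f = ⊤) (hJ0 : 1 ≤ J) (hJ2 : J ≤ jj s.card)
    (hlam : ∀ i ∈ s, lam (FS s f) (f i) ≤ J - 1)
    (hTl : J * (J - 1) + 1 ≤ (FS s f).card)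
    (hc2 : (FS s f).card + J * (J - 1) < Nat.card G) :
    ∃ H : AddSubgroup G, Nat.card H + 1 ≤ J ∧ ∃ i ∈ s, f i ∈ H := by
  have := Fintype.ofFinite G
  obtain ⟨D, hD0, hDs', hDf, hDg, hDc⟩ := all_Ds G ι s f h0 hA hC
  rw [hgen] at hDg
  have hlD : ∀ y ∈ D, lam (FS s f) y ≤ J - 1 := by
    intro y hy
    by_cases hy0 : y = 0
    · rw [hy0, lam_zero]
      exact Nat.zero_le _
    · obtain ⟨i, hi, h | h⟩ := hDf y hy hy0
      · rw [← h]
        exact hlam i hi
      · rw [← lam_neg, ← h]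
        exact hlam i hi
  obtain ⟨X, hX1, hX2, hX3⟩ : ∃ X : Finset G, J * (J - 1) + 1 ≤ X.card ∧
      2 * X.card ≤ Nat.card G ∧ ∀ y, lam X y = lam (FS s f) y := by
    rcases Nat.lt_or_ge (Nat.card G) (2 * (FS s f).card) with h | h
    · refine ⟨(FS s f)ᶜ, ?_, ?_, fun y => lam_compl (FS s f) y⟩
      · rw [card_compl, ← Nat.card_eq_fintype_card]
        omega
      · rw [card_compl, ← Nat.card_eq_fintype_card]
        omega
    · exact ⟨FS s f, hTl, h, fun y => rfl⟩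
  have hJ1 : J - 1 + 1 = J := by omega
  have hex : ∃ i, (it D i).card < 2 * i * J + 1 ∧ (it D i).card < 2 * X.card := by
    by_contra hcon
    push Not at hcon
    refine all_Av G X D (J - 1) hD0 (fun y hy => (hX3 y).le.trans (hlD y hy)) ?_ ?_
    · rw [hJ1]
      exact hX1
    · intro i
      rw [hJ1]
      rcases Nat.lt_or_ge (it D i).card (2 * i * J + 1) with h | h
      · exact Or.inr (hcon i h)
      · exact Or.inl h
  obtain ⟨i, hi1, hi2⟩ := hex
  obtain ⟨H, hH, y, hy, hy0, hyH⟩ := all_Gr G D J i hD0 hDs' hDg (by omega) hi1 (by omega)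
  obtain ⟨k, hk, hk'⟩ := hDf y hy hy0
  refine ⟨H, hH, k, hk, ?_⟩
  rcases hk' with h | h
  · rw [h]
    exact hyH
  · rw [h]
    exact H.neg_mem hyH

/-- lower bound for the sums without one member -/
theorem erase_low {G : Type} [AddCommGroup G] [Finite G] (hPA : SNG.PAG G)
    (hM : M1P G (l0 G - 1)) (A : Finset G) (h0 : (0 : G) ∉ A) (hA : Aper (FS A id))
    (hg : AddSubgroup.closure (A : Set G) = ⊤) (hx : (FS A id).card < 2 * cf 2 (A.card - 1))
    (i : G) (hi : i ∈ A) :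
    gen (A.erase i) id = ⊤ ∧
      (min (pn (A.card - 1)) (cf 2 (A.card - 1) + (l0 G - 1)) ≤ (FS (A.erase i) id).card ∨
      Nat.card G ≤ (FS (A.erase i) id).card + jj (A.card - 1) * (jj (A.card - 1) - 1)) := by
  have hgA : gen A id = ⊤ := by
    unfold gen
    rw [Set.image_id]
    exact hg
  have hcap : Cap 2 A (id : G → G) := by
    intro x
    have h1 : (A.filter fun i => id i = x ∨ id i = -x) ⊆ {x, -x} := by
      intro y hy
      rw [mem_insert, mem_singleton]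
      exact (mem_filter.1 hy).2
    exact (card_le_card h1).trans card_le_two
  have hAe : Aper (FS (A.erase i) id) := (all_Ba1 G G id).2.1 A (A.erase i) (erase_subset _ _) hA
  have h0e : ∀ k ∈ A.erase i, id k ≠ (0 : G) := fun k hk h =>
    h0 ((show k = 0 from h) ▸ erase_subset _ _ hk)
  have hce : Cap 2 (A.erase i) (id : G → G) := fun x =>
    (card_le_card (filter_subset_filter _ (erase_subset _ _))).trans (hcap x)
  have hcard : (A.erase i).card = A.card - 1 := card_erase_of_mem hi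
  have hge : gen (A.erase i) id = ⊤ := by
    rw [← hgA]
    apply (all_Ba1 G G id).2.2.2.2.2.1 A i hi
    by_contra hne
    have h3 := (all_Ba1 G G id).2.2.2.1 A i hi hne
    have h4 := hPA G (A.erase i) id h0e hce hAe
    rw [hcard] at h4
    omega
  refine ⟨hge, ?_⟩
  have h5 := hM G (A.erase i) id h0e hce hAe hge
  rwa [hcard] at h5

theorem small_num : cf 2 6 = 13 ∧ cf 2 12 = 43 ∧ pn 6 = 19 ∧ pn 12 = 74 ∧ jj 6 = 3 ∧ jj 12 = 6 ∧
    jj 7 = 4 ∧ jj 13 = 7 ∧ cf 2 13 = 50 := by decide +kernel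

/-- order `27`: seven elements do not have `17` sums -/
theorem no_27 (G : Type) [AddCommGroup G] [Finite G] (hn : Nat.card G = 27)
    (hcyc : ¬ IsAddCyclic G) (hPA : SNG.PAG G) (hM : M1P G (l0 G - 1)) (A : Finset G)
    (h0 : (0 : G) ∉ A) (hA : Aper (FS A id)) (hg : AddSubgroup.closure (A : Set G) = ⊤)
    (hc : A.card = 7) : (FS A id).card ≠ 17 := by
  intro hx
  obtain ⟨e1, -, e3, -, e5, -, e7, -, -⟩ := small_num
  have hl2 := SNG.TG_l0two G hcyc
  have hl3 : 3 ≤ l0 G := by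
    have h1 := l0_mul G
    rw [hn] at h1
    by_contra hcon
    have h2 : l0 G = 2 := by omega
    rw [h2] at h1
    omega
  have hlow : ∀ i ∈ A, 15 ≤ (FS (A.erase i) id).card := by
    intro i hi
    have h1 := (erase_low hPA hM A h0 hA hg (by
      rw [hc, hx, show 7 - 1 = 6 from rfl, e1]
      norm_num) i hi).2
    rw [hc, show 7 - 1 = 6 from rfl, e1, e3, e5, hn] at h1
    have h2 : (FS (A.erase i) id).card ≤ (FS A id).card :=
      card_le_card (FS_mono (erase_subset _ _) id)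
    rcases h1 with h1 | h1
    · rcases min_le_iff.1 h1 with h3 | h3 <;> omega
    · omega
  have hlam : ∀ i ∈ A, lam (FS A id) (id i) ≤ 3 - 1 := by
    intro i hi
    have h3 := (all_Ba1 G G id).2.2.1 A i hi
    have h4 := hlow i hi
    omega
  have hgA : gen A id = ⊤ := by
    unfold gen
    rw [Set.image_id]
    exact hg
  have hcap : Cap 2 A (id : G → G) := by
    intro x
    have h1 : (A.filter fun i => id i = x ∨ id i = -x) ⊆ {x, -x} := by
      intro y hy
      rw [mem_insert, mem_singleton]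
      exact (mem_filter.1 hy).2
    exact (card_le_card h1).trans card_le_two
  have h0' : ∀ i ∈ A, id i ≠ (0 : G) := fun i hi h => h0 ((show i = 0 from h) ▸ hi)
  obtain ⟨H, hH, i, hi, hiH⟩ := sub2 A id 3 h0' hcap hA hgA (by norm_num)
    (by rw [hc, e7]; norm_num) hlam (by rw [hx]; norm_num) (by rw [hx, hn]; norm_num)
  have h1 := AddSubgroup.card_addSubgroup_dvd_card H
  rw [hn] at h1
  have h2 : Nat.card H ≠ 1 := by
    intro h3
    rw [AddSubgroup.card_eq_one] at h3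
    rw [h3, AddSubgroup.mem_bot] at hiH
    exact h0' i hi hiH
  have h3 : 0 < Nat.card H := Nat.card_pos
  have h4 : Nat.card H = 2 := by omega
  rw [h4] at h1
  omega

/-- order `81`, exponent `9`: thirteen elements do not have `50, ..., 53` sums -/
theorem no_81a (G : Type) [AddCommGroup G] [Finite G] (hn : Nat.card G = 81)
    (hl : 9 ≤ l0 G) (hPA : SNG.PAG G) (hM : M1P G (l0 G - 1)) (A : Finset G)
    (h0 : (0 : G) ∉ A) (hA : Aper (FS A id)) (hg : AddSubgroup.closure (A : Set G) = ⊤)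
    (hc : A.card = 13) : ¬ (FS A id).card ≤ 53 := by
  intro hx
  obtain ⟨-, e2, -, e4, -, e6, -, e8, e9⟩ := small_num
  have hlow : ∀ i ∈ A, 51 ≤ (FS (A.erase i) id).card := by
    intro i hi
    have h1 := (erase_low hPA hM A h0 hA hg (by
      rw [hc, show 13 - 1 = 12 from rfl, e2]
      omega) i hi).2
    rw [hc, show 13 - 1 = 12 from rfl, e2, e4, e6, hn] at h1
    rcases h1 with h1 | h1
    · rcases min_le_iff.1 h1 with h3 | h3 <;> omega
    · omega
  have hlam : ∀ i ∈ A, lam (FS A id) (id i) ≤ 3 - 1 := by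
    intro i hi
    have h3 := (all_Ba1 G G id).2.2.1 A i hi
    have h4 := hlow i hi
    omega
  have hgA : gen A id = ⊤ := by
    unfold gen
    rw [Set.image_id]
    exact hg
  have hcap : Cap 2 A (id : G → G) := by
    intro x
    have h1 : (A.filter fun i => id i = x ∨ id i = -x) ⊆ {x, -x} := by
      intro y hy
      rw [mem_insert, mem_singleton]
      exact (mem_filter.1 hy).2
    exact (card_le_card h1).trans card_le_two
  have h0' : ∀ i ∈ A, id i ≠ (0 : G) := fun i hi h => h0 ((show i = 0 from h) ▸ hi)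
  have hx50 := hPA G A id h0' hcap hA
  rw [hc, e9] at hx50
  obtain ⟨H, hH, i, hi, hiH⟩ := sub2 A id 3 h0' hcap hA hgA (by norm_num)
    (by rw [hc, e8]; norm_num) hlam (by omega) (by omega)
  have h1 := AddSubgroup.card_addSubgroup_dvd_card H
  rw [hn] at h1
  have h2 : Nat.card H ≠ 1 := by
    intro h3
    rw [AddSubgroup.card_eq_one] at h3
    rw [h3, AddSubgroup.mem_bot] at hiH
    exact h0' i hi hiH
  have h3 : 0 < Nat.card H := Nat.card_pos
  have h4 : Nat.card H = 2 := by omega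
  rw [h4] at h1
  omega

/-- order `81`: thirteen elements do not have `50` sums -/
theorem no_81 (G : Type) [AddCommGroup G] [Finite G] (hn : Nat.card G = 81)
    (hcyc : ¬ IsAddCyclic G) (hPA : SNG.PAG G) (hM : M1P G (l0 G - 1)) (A : Finset G)
    (h0 : (0 : G) ∉ A) (hA : Aper (FS A id)) (hg : AddSubgroup.closure (A : Set G) = ⊤)
    (hc : A.card = 13) : (FS A id).card ≠ 50 := by
  intro hx
  obtain ⟨-, e2, -, e4, -, e6, -, e8, -⟩ := small_num
  have hl2 := SNG.TG_l0two G hcyc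
  have hl3 : 3 ≤ l0 G := by
    have h1 := l0_mul G
    rw [hn] at h1
    by_contra hcon
    have h2 : l0 G = 2 := by omega
    rw [h2] at h1
    omega
  have hge : ∀ i ∈ A, gen (A.erase i) id = ⊤ := fun i hi =>
    (erase_low hPA hM A h0 hA hg (by
      rw [hc, hx, show 13 - 1 = 12 from rfl, e2]
      norm_num) i hi).1
  have hlow : ∀ i ∈ A, 45 ≤ (FS (A.erase i) id).card := by
    intro i hi
    have h1 := (erase_low hPA hM A h0 hA hg (by
      rw [hc, hx, show 13 - 1 = 12 from rfl, e2]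
      norm_num) i hi).2
    rw [hc, show 13 - 1 = 12 from rfl, e2, e4, e6, hn] at h1
    have h2 : (FS (A.erase i) id).card ≤ (FS A id).card :=
      card_le_card (FS_mono (erase_subset _ _) id)
    rcases h1 with h1 | h1
    · rcases min_le_iff.1 h1 with h3 | h3 <;> omega
    · omega
  have hlam : ∀ i ∈ A, lam (FS A id) (id i) ≤ 6 - 1 := by
    intro i hi
    have h3 := (all_Ba1 G G id).2.2.1 A i hi
    have h4 := hlow i hi
    omega
  have hgA : gen A id = ⊤ := by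
    unfold gen
    rw [Set.image_id]
    exact hg
  have hcap : Cap 2 A (id : G → G) := by
    intro x
    have h1 : (A.filter fun i => id i = x ∨ id i = -x) ⊆ {x, -x} := by
      intro y hy
      rw [mem_insert, mem_singleton]
      exact (mem_filter.1 hy).2
    exact (card_le_card h1).trans card_le_two
  have h0' : ∀ i ∈ A, id i ≠ (0 : G) := fun i hi h => h0 ((show i = 0 from h) ▸ hi)
  obtain ⟨H, hH, i, hi, hiH⟩ := sub2 A id 6 h0' hcap hA hgA (by norm_num)
    (by rw [hc, e8]; norm_num) hlam (by rw [hx]; norm_num) (by rw [hx, hn]; norm_num)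
  rcases SNG.Al_cand A id 6 h0' hA hlam H hH i hi hiH with h1 | ⟨P, hPb, hC⟩
  · omega
  obtain ⟨K, _, _, π, hπs, hπk, hπc⟩ := q_exists G P
  obtain ⟨d1, -, -, d4, d5⟩ := Cd_data hπs hπk hC h0' hA (6 - 1) hlam
  obtain ⟨d6, -⟩ := d5 hPb
  obtain ⟨m, a, hm, -, hma, d2, d3, d8⟩ := SNG.Al_data hπk hC h0' hA (6 - 1) hlam hPb
  have hu := two_le_card hC.1 hge hgA
  have huv : (A.filter fun i => id i ∉ P).card + (A.filter fun i => id i ∈ P).card = 13 := by
    rw [← hc, add_comm]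
    exact Finset.card_filter_add_card_filter_not (s := A) (fun i => id i ∈ P)
  have hsubR : (A.filter fun i => id i ∈ P) ⊆ A := filter_subset _ _
  have hAR : Aper (FS (A.filter fun i => id i ∈ P) id) := (all_Ba1 G G id).2.1 _ _ hsubR hA
  have hYR : cf 2 (A.filter fun i => id i ∈ P).card ≤
      (FS (A.filter fun i => id i ∈ P) id).card :=
    hPA G (A.filter fun i => id i ∈ P) id (fun k hk => h0' k (hsubR hk))
      (fun x => (card_le_card (filter_subset_filter _ hsubR)).trans (hcap x)) hAR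
  have hqn := q_ne A (id : G → G) hπk
  have hqc : Cap (2 * Nat.card P) (A.filter fun i => id i ∉ P) (fun i => π (id i)) :=
    q_cap A id hπs hπk 2 hcap
  have hPc : 3 ≤ Nat.card P := by
    rw [hma]
    have h1 : a ≤ m * a := Nat.le_mul_of_pos_left a hm
    omega
  have hQlow := (all_main _).2 (Nat.card P) (by omega) K G (A.filter fun i => id i ∉ P)
    (fun i => π (id i)) rfl hqn hqc d1
  have hQs := (all_Sm K G (A.filter fun i => id i ∉ P) (fun i => π (id i)) hqn d1).1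
  have hQH : (FS (A.filter fun i => id i ∉ P) (fun i => π (id i))).card + 1 ≤ Nat.card K := by
    have hHb : (⊤ : AddSubgroup K) ≠ ⊥ := by
      intro hb
      apply hC.1
      rw [eq_top_iff]
      intro x _
      rw [← hπk]
      have h6 : π x ∈ (⊤ : AddSubgroup K) := AddSubgroup.mem_top _
      rwa [hb, AddSubgroup.mem_bot] at h6
    have h7 := (all_Kn K).2.2.2 (FS (A.filter fun i => id i ∉ P) (fun i => π (id i))) ⊤
      ⟨0, zero_mem_FS _ _⟩ hHb (fun x _ => AddSubgroup.mem_top _) d1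
    rwa [AddSubgroup.card_top] at h7
  rw [hn] at hπc
  rw [hx] at d2 d3
  have hPd : Nat.card P ∣ 3 ^ 4 := ⟨Nat.card K, by rw [← hπc]; norm_num⟩
  obtain ⟨k, hk, hPk⟩ := (Nat.dvd_prime_pow Nat.prime_three).1 hPd
  obtain ⟨u, hu'⟩ : ∃ u, u = (A.filter fun i => id i ∉ P).card := ⟨_, rfl⟩
  obtain ⟨v, hv'⟩ : ∃ v, v = (A.filter fun i => id i ∈ P).card := ⟨_, rfl⟩
  obtain ⟨Y, hY'⟩ : ∃ Y, Y = (FS (A.filter fun i => id i ∈ P) id).card := ⟨_, rfl⟩
  obtain ⟨Q, hQ'⟩ : ∃ Q, Q = (FS (A.filter fun i => id i ∉ P) (fun i => π (id i))).card :=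
    ⟨_, rfl⟩
  rw [← hu', ← hQ'] at hQlow hQs
  rw [← hQ'] at hQH
  rw [← hY', ← hQ'] at d2 d3
  rw [← hv', ← hY'] at d4
  rw [← hY'] at d8
  rw [← hv'] at d6
  rw [← hu'] at hu
  rw [← hu', ← hv'] at huv
  rw [← hv', ← hY'] at hYR
  have hv5 : 5 ≤ v → 10 ≤ Y := fun h5 => by
    refine le_trans ?_ hYR
    refine le_trans ?_ (thm_Nm1.2.2.2.1 2 5 v h5)
    decide +kernel
  have hv7 : 7 ≤ v → 17 ≤ Y := fun h5 => by
    refine le_trans ?_ hYR
    refine le_trans ?_ (thm_Nm1.2.2.2.1 2 7 v h5)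
    decide +kernel
  have hk4 : k = 1 ∨ k = 2 ∨ k = 3 := by
    rcases (by omega : k = 0 ∨ k = 1 ∨ k = 2 ∨ k = 3 ∨ k = 4) with h | h | h | h | h
    · rw [h, pow_zero] at hPk
      omega
    · omega
    · omega
    · omega
    · rw [h] at hPk
      rw [hPk] at hπc
      omega
  rcases hk4 with h | h | h
  · -- order `3`
    rw [h, pow_one] at hPk
    have ha : a = 3 := by
      have h1 : a ≤ m * a := Nat.le_mul_of_pos_left a hm
      omega
    subst ha
    have hm1 : m = 1 := by omega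
    subst hm1
    have hv1 : v = 1 := by omega
    have hu1 : u = 12 := by omega
    rw [hPk, hu1] at hQlow
    have h19 : cf (2 * 3) 12 = 19 := by decide +kernel
    rw [h19] at hQlow
    omega
  · -- order `9`
    rw [h] at hPk
    have h9 : m * a = 9 := by
      rw [← hma, hPk]
      norm_num
    rw [h9] at d2
    have ha9 : a ≤ 9 := by
      have h1 : a ≤ m * a := Nat.le_mul_of_pos_left a hm
      omega
    have h10 : 5 * (a - Y) ≤ 5 * 7 := Nat.mul_le_mul_left 5 (by omega)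
    omega
  · -- order `27`
    rw [h] at hPk
    have h9 : m * a = 27 := by
      rw [← hma, hPk]
      norm_num
    rw [h9] at d2
    have hK : Nat.card K = 3 := by
      rw [hPk] at hπc
      omega
    omega

end Pool.Agent.SNS
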