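import Pool.Agent.SDG.All

/-!
# SNS, module Bf (helper22): a verified search for aperiodic sets of sums in small groups

Subsets of a group with `n` elements are bit masks, `tr tab N` is the translate of `N`; the search runs through the pairs `{x, -x}`.
-/

set_option autoImplicit false

noncomputable section

open Finset Pool.Agent.Helper64.Rho Pool.Agent.SDG
open scoped Classical Pointwise

namespace Pool.Agent.SNS

/-- translation data: pieces `(mask, left shift, right shift)` -/
abbrev Tab := List (ℕ × ℕ × ℕ)

/-- the translate of a bit mask -/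
def tr : Tab → ℕ → ℕ
  | [], _ => 0
  | (p :: l), N => (((N &&& p.1) <<< p.2.1) >>> p.2.2) ||| tr l N

/-- some translate is equal -/
def per : List Tab → ℕ → Bool
  | [], _ => false
  | (p :: l), N => Nat.beq (tr p N) N || per l N

/-- the number of ones among the first `k` bits -/
def pc : ℕ → ℕ → ℕ
  | 0, _ => 0
  | (k + 1), N => (N >>> k) % 2 + pc k N

/-- the search: `true` if no completion is aperiodic with a number of elements in `[lo, hi]` -/
def dfs (n t lo hi : ℕ) (P : List Tab) : List Tab → ℕ → ℕ → Bool
  | [], N, m => !(Nat.beq m t) || !(Nat.ble lo (pc n N) && Nat.ble (pc n N) hi)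
  | (x :: l), N, m =>
    if Nat.beq m t then !(Nat.ble lo (pc n N) && Nat.ble (pc n N) hi) else
      if Nat.ble (m + 2 * l.length + 3) t then true else
        dfs n t lo hi P l N m &&
        (match N ||| tr x N with
          | 0 => true
          | Nat.succ k => per P (k + 1) || (dfs n t lo hi P l (k + 1) (m + 1) &&
            (match (k + 1) ||| tr x (k + 1) with
              | 0 => true
              | Nat.succ k' => per P (k' + 1) || dfs n t lo hi P l (k' + 1) (m + 2))))

section sound

variable {G : Type} [AddCommGroup G] [Finite G] (e : G → ℕ)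

/-- the mask `N` represents the set `S` -/
def Rep (N : ℕ) (S : Finset G) : Prop := ∀ g, N.testBit (e g) = true ↔ g ∈ S

/-- `tab` describes the translation by `g` -/
def TabOK (g : G) (tab : Tab) : Prop := ∀ h : G,
  (∃ p ∈ tab, p.2.1 ≤ e h + p.2.2 ∧ e h + p.2.2 - p.2.1 = e (h - g) ∧
    p.1.testBit (e (h - g)) = true) ∧
  ∀ p ∈ tab, p.2.1 ≤ e h + p.2.2 → p.1.testBit (e h + p.2.2 - p.2.1) = true →
    e h + p.2.2 - p.2.1 = e (h - g)

variable {e}

theorem tr_bit (tab : Tab) (N i : ℕ) : (tr tab N).testBit i = true ↔
    ∃ p ∈ tab, p.2.1 ≤ i + p.2.2 ∧ N.testBit (i + p.2.2 - p.2.1) = true ∧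
      p.1.testBit (i + p.2.2 - p.2.1) = true := by
  induction tab with
  | nil => simp [tr]
  | cons p l ih =>
    rw [tr, Nat.testBit_or, Bool.or_eq_true, ih]
    have h1 : (((N &&& p.1) <<< p.2.1) >>> p.2.2).testBit i = true ↔
        p.2.1 ≤ i + p.2.2 ∧ N.testBit (i + p.2.2 - p.2.1) = true ∧
          p.1.testBit (i + p.2.2 - p.2.1) = true := by
      rw [Nat.testBit_shiftRight, Nat.testBit_shiftLeft, Nat.testBit_and, add_comm p.2.2 i]
      simp
    rw [h1]
    simp

theorem tr_rep {g : G} {tab : Tab} (ht : TabOK e g tab) {N : ℕ} {S : Finset G}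
    (hS : Rep e N S) (h : G) : (tr tab N).testBit (e h) = true ↔ h - g ∈ S := by
  rw [tr_bit]
  constructor
  · rintro ⟨p, hp, h1, h2, h3⟩
    rw [(ht h).2 p hp h1 h3] at h2
    exact (hS _).1 h2
  · intro h1
    obtain ⟨p, hp, h2, h3, h4⟩ := (ht h).1
    exact ⟨p, hp, h2, by rw [h3]; exact (hS _).2 h1, by rw [h3]; exact h4⟩

theorem or_rep {g : G} {tab : Tab} (ht : TabOK e g tab) {N : ℕ} {S : Finset G}
    (hS : Rep e N S) : Rep e (N ||| tr tab N) (S + {0, g}) := by
  intro h
  rw [Nat.testBit_or, Bool.or_eq_true, tr_rep ht hS, hS h, mem_add]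
  constructor
  · rintro (h1 | h1)
    · exact ⟨h, h1, 0, by simp, by simp⟩
    · exact ⟨h - g, h1, g, by simp, by simp⟩
  · rintro ⟨a, ha, b, hb, rfl⟩
    rw [mem_insert, mem_singleton] at hb
    rcases hb with rfl | rfl
    · left
      simpa using ha
    · right
      simpa using ha

theorem per_sound {P : List Tab} {N : ℕ} {S : Finset G} (hS : Rep e N S)
    (hP : ∀ p ∈ P, ∃ g : G, g ≠ 0 ∧ TabOK e g p) (h : per P N = true) :
    ∃ g : G, g ≠ 0 ∧ ∀ x ∈ S, x + g ∈ S := by
  induction P with
  | nil => simp [per] at h
  | cons p l ih =>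
    rw [per, Bool.or_eq_true] at h
    rcases h with h | h
    · obtain ⟨g, hg, ht⟩ := hP p (List.mem_cons_self ..)
      have h1 : tr p N = N := Nat.eq_of_beq_eq_true h
      refine ⟨g, hg, fun x hx => ?_⟩
      rw [← hS, ← h1, tr_rep ht hS, add_sub_cancel_right]
      exact hx
    · exact ih (fun q hq => hP q (List.mem_cons_of_mem _ hq)) h

theorem pc_eq (k N : ℕ) : pc k N = ((Finset.range k).filter fun i => N.testBit i = true).card := by
  induction k with
  | zero => simp [pc]
  | succ k ih =>
    rw [pc, ih, Finset.range_add_one, Finset.filter_insert]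
    have h1 : (N >>> k) % 2 = if N.testBit k = true then 1 else 0 := by
      rw [Nat.testBit, Nat.one_and_eq_mod_two]
      rcases Nat.mod_two_eq_zero_or_one (N >>> k) with h | h <;> simp [h]
    rw [h1]
    split_ifs with h2
    · rw [card_insert_of_notMem (by simp), add_comm]
    · rw [zero_add]

theorem pc_card {n N : ℕ} {S : Finset G} (he : Function.Injective e) (hn : ∀ g, e g < n)
    (hs : ∀ i < n, ∃ g, e g = i) (hS : Rep e N S) : pc n N = S.card := by
  rw [pc_eq, ← card_image_of_injective S he]
  congr 1
  ext i
  rw [mem_filter, mem_range, mem_image]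
  constructor
  · rintro ⟨h1, h2⟩
    obtain ⟨g, rfl⟩ := hs i h1
    exact ⟨g, (hS g).1 h2, rfl⟩
  · rintro ⟨g, hg, rfl⟩
    exact ⟨hn g, (hS g).2 hg⟩

theorem Aper_shift {X : Finset G} {c : G} (h : Aper (X + {c})) : Aper X := by
  intro g hg
  apply h
  intro x hx
  obtain ⟨y, hy, z, hz, rfl⟩ := mem_add.1 hx
  rw [mem_singleton] at hz
  subst hz
  have h1 : y + z + g = y + g + z := by abel
  rw [h1]
  exact add_mem_add (hg y hy) (mem_singleton_self _)

theorem card_shift (X : Finset G) (c : G) : (X + {c}).card = X.card := by
  rw [add_singleton]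
  exact card_image_of_injective _ (add_left_injective c)

theorem pair1 (x : G) : ({0, -x} : Finset G) = {0, x} + {-x} := by
  ext z
  simp only [mem_insert, mem_singleton, mem_add]
  constructor
  · rintro (rfl | rfl)
    · exact ⟨x, Or.inr rfl, -x, rfl, by abel⟩
    · exact ⟨0, Or.inl rfl, -x, rfl, by abel⟩
  · rintro ⟨a, ha, b, rfl, rfl⟩
    rcases ha with rfl | rfl
    · right; abel
    · left; abel

theorem pair2 (x : G) : ({0, x} : Finset G) + {0, -x} = {0, x} + {0, x} + {-x} := by
  rw [pair1, add_assoc]

theorem FS_single (x : G) : FS ({x} : Finset G) id = {0, x} := by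
  ext z
  rw [mem_FS, mem_insert, mem_singleton]
  constructor
  · rintro ⟨t, ht, rfl⟩
    rcases Finset.subset_singleton_iff.1 ht with rfl | rfl
    · left; simp
    · right; simp
  · rintro (rfl | rfl)
    · exact ⟨∅, empty_subset _, by simp⟩
    · exact ⟨{z}, le_rfl, by simp⟩

theorem FS_two (x y : G) (h : x ≠ y) : FS ({x, y} : Finset G) id = {0, x} + {0, y} := by
  have h1 : ({x, y} : Finset G) = {x} ∪ {y} := by
    ext z
    simp
  rw [h1, (all_Ba1 G G id).1 {x} {y} (by simpa using h), FS_single, FS_single]

theorem dfs_sound {n t lo hi : ℕ} {P : List Tab} (he : Function.Injective e)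
    (hn : ∀ g, e g < n) (hs : ∀ i < n, ∃ g, e g = i)
    (hP : ∀ p ∈ P, ∃ g : G, g ≠ 0 ∧ TabOK e g p) :
    ∀ (X : List G) (L : List Tab), List.Forall₂ (TabOK e) X L →
    ∀ (N m : ℕ) (S A : Finset G), Rep e N S → S.Nonempty →
      (∀ a ∈ A, ∃ x ∈ X, a = x ∨ a = -x) → m + A.card = t → Aper (S + FS A id) →
      dfs n t lo hi P L N m = true → ¬ (lo ≤ (S + FS A id).card ∧ (S + FS A id).card ≤ hi) := by
  have hleaf : ∀ (N : ℕ) (S : Finset G), Rep e N S →
      (!(Nat.ble lo (pc n N) && Nat.ble (pc n N) hi)) = true →
      ¬ (lo ≤ S.card ∧ S.card ≤ hi) := by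
    intro N S hS h1 h2
    rw [pc_card he hn hs hS] at h1
    rw [Bool.not_eq_true', Bool.and_eq_false_iff] at h1
    rcases h1 with h1 | h1
    · exact absurd (Nat.ble_eq_true_of_le h2.1) (by rw [h1]; decide)
    · exact absurd (Nat.ble_eq_true_of_le h2.2) (by rw [h1]; decide)
  have hempty : ∀ S : Finset G, S + FS (∅ : Finset G) id = S := by
    intro S
    rw [FS_empty, add_singleton]
    simp
  intro X L hXL
  induction hXL with
  | nil =>
    intro N m S A hS _ hA hm _ hd
    have hA0 : A = ∅ := by
      rw [eq_empty_iff_forall_notMem]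
      intro a ha
      obtain ⟨x, hx, -⟩ := hA a ha
      simp at hx
    subst hA0
    rw [card_empty, add_zero] at hm
    subst hm
    rw [dfs, Bool.or_eq_true] at hd
    rw [hempty]
    rcases hd with hd | hd
    · rw [Nat.beq_refl] at hd
      exact absurd hd (by decide)
    · exact hleaf N S hS hd
  | @cons x tab X L hx hXL ih =>
    intro N m S A hS hSne hA hm hap hd
    rw [dfs] at hd
    by_cases hmt : m = t
    · have hA0 : A = ∅ := by
        rw [← card_eq_zero]
        omega
      subst hA0
      rw [if_pos (by rw [hmt]; exact Nat.beq_refl t)] at hd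
      rw [hempty]
      exact hleaf N S hS hd
    rw [if_neg (by
      intro h
      exact hmt (Nat.eq_of_beq_eq_true h))] at hd
    have hcardA : A.card ≤ 2 * (L.length + 1) := by
      have h1 : A ⊆ ((x :: X).toFinset) ∪ ((x :: X).map (fun y => -y)).toFinset := by
        intro a ha
        obtain ⟨y, hy, hay⟩ := hA a ha
        rw [mem_union, List.mem_toFinset, List.mem_toFinset, List.mem_map]
        rcases hay with rfl | rfl
        · exact Or.inl hy
        · exact Or.inr ⟨y, hy, rfl⟩
      have h2 := (card_le_card h1).trans (card_union_le _ _)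
      have h3 := List.toFinset_card_le (x :: X)
      have h4 := List.toFinset_card_le ((x :: X).map (fun y => -y))
      rw [List.length_map] at h4
      have h5 := hXL.length_eq
      rw [List.length_cons] at h3 h4
      omega
    rw [if_neg (by
      intro h
      have := Nat.le_of_ble_eq_true h
      omega), Bool.and_eq_true] at hd
    obtain ⟨hd1, hd2⟩ := hd
    have hsplit : ∀ B A' : Finset G, A = B ∪ A' → Disjoint B A' →
        S + FS A id = (S + FS B id) + FS A' id := by
      intro B A' h1 h2
      rw [h1, (all_Ba1 G G id).1 B A' h2, add_assoc]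
    have hrest : ∀ a ∈ A.filter (fun a => a ≠ x ∧ a ≠ -x), ∃ y ∈ X, a = y ∨ a = -y := by
      intro a ha
      obtain ⟨h1, h2, h3⟩ := mem_filter.1 ha
      obtain ⟨y, hy, hay⟩ := hA a h1
      rw [List.mem_cons] at hy
      rcases hy with rfl | hy
      · rcases hay with h4 | h4
        · exact absurd h4 h2
        · exact absurd h4 h3
      · exact ⟨y, hy, hay⟩
    have hN1 := or_rep hx hS
    have hS1 : (S + {0, x}).Nonempty := hSne.add (insert_nonempty _ _)
    have hnz1 : N ||| tr tab N ≠ 0 := by
      intro h0
      obtain ⟨g, hg⟩ := hS1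
      have := (hN1 g).2 hg
      rw [h0] at this
      simp at this
    obtain ⟨k, hk⟩ : ∃ k, N ||| tr tab N = k + 1 := ⟨(N ||| tr tab N) - 1, by omega⟩
    rw [hk] at hN1 hd2
    have hN2 := or_rep hx hN1
    have hS2 : (S + {0, x} + {0, x}).Nonempty := hS1.add (insert_nonempty _ _)
    have hnz2 : (k + 1) ||| tr tab (k + 1) ≠ 0 := by
      intro h0
      obtain ⟨g, hg⟩ := hS2
      have := (hN2 g).2 hg
      rw [h0] at this
      simp at this
    obtain ⟨k', hk'⟩ : ∃ k', (k + 1) ||| tr tab (k + 1) = k' + 1 :=
      ⟨((k + 1) ||| tr tab (k + 1)) - 1, by omega⟩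
    have hd3 : (per P (k + 1) || (dfs n t lo hi P L (k + 1) (m + 1) &&
        (per P (k' + 1) || dfs n t lo hi P L (k' + 1) (m + 2)))) = true := by
      have h1 : (match (k + 1) ||| tr tab (k + 1) with
          | 0 => true
          | Nat.succ k' => per P (k' + 1) || dfs n t lo hi P L (k' + 1) (m + 2)) =
          (per P (k' + 1) || dfs n t lo hi P L (k' + 1) (m + 2)) := by
        rw [hk']
      rw [← h1]
      exact hd2
    rw [hk'] at hN2
    have hbad : ∀ (Z A' : Finset G), A'.card ≤ A.card → Aper (Z + FS A' id) →
        (∃ g : G, g ≠ 0 ∧ ∀ x ∈ Z, x + g ∈ Z) → False := by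
      rintro Z A' - h1 ⟨g, hg, h2⟩
      apply hg
      apply h1
      intro y hy
      obtain ⟨a, ha, b, hb, rfl⟩ := mem_add.1 hy
      have h3 : a + b + g = a + g + b := by abel
      rw [h3]
      exact add_mem_add (h2 a ha) hb
    have hnper1 : ∀ A' : Finset G, A'.card ≤ A.card → Aper (S + {0, x} + FS A' id) →
        dfs n t lo hi P L (k + 1) (m + 1) = true ∧
          (per P (k' + 1) || dfs n t lo hi P L (k' + 1) (m + 2)) = true := by
      intro A' h1 h2
      rw [Bool.or_eq_true] at hd3
      rcases hd3 with h3 | h3
      · exact (hbad _ A' h1 h2 (per_sound hN1 hP h3)).elim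
      · rwa [Bool.and_eq_true] at h3
    by_cases hxA : x ∈ A
    · by_cases hyA : -x ∈ A
      · by_cases hxx : x = -x
        · -- an involution: one member
          have h1 : A = {x} ∪ A.filter (fun a => a ≠ x ∧ a ≠ -x) := by
            ext a
            rw [mem_union, mem_singleton, mem_filter]
            constructor
            · intro ha
              by_cases h2 : a = x
              · exact Or.inl h2
              · exact Or.inr ⟨ha, h2, by rw [← hxx]; exact h2⟩
            · rintro (rfl | h2)
              · exact hxA
              · exact h2.1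
          have h2 : Disjoint {x} (A.filter (fun a => a ≠ x ∧ a ≠ -x)) := by
            rw [disjoint_singleton_left, mem_filter]
            rintro ⟨-, h3, -⟩
            exact h3 rfl
          have h3 := hsplit _ _ h1 h2
          rw [FS_single] at h3
          rw [h3] at hap ⊢
          have h4 := congrArg Finset.card h1
          rw [card_union_of_disjoint h2, card_singleton] at h4
          have h5 := hnper1 _ (by omega) hap
          exact ih (k + 1) (m + 1) _ _ hN1 hS1 hrest (by omega) hap h5.1
        · -- both
          have h1 : A = {x, -x} ∪ A.filter (fun a => a ≠ x ∧ a ≠ -x) := by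
            ext a
            rw [mem_union, mem_insert, mem_singleton, mem_filter]
            constructor
            · intro ha
              by_cases h2 : a = x
              · exact Or.inl (Or.inl h2)
              · by_cases h3 : a = -x
                · exact Or.inl (Or.inr h3)
                · exact Or.inr ⟨ha, h2, h3⟩
            · rintro ((rfl | rfl) | h2)
              · exact hxA
              · exact hyA
              · exact h2.1
          have h2 : Disjoint {x, -x} (A.filter (fun a => a ≠ x ∧ a ≠ -x)) := by
            rw [disjoint_left]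
            intro a ha hb
            rw [mem_insert, mem_singleton] at ha
            obtain ⟨-, h3, h4⟩ := mem_filter.1 hb
            rcases ha with h5 | h5
            · exact h3 h5
            · exact h4 h5
          have h3 := hsplit _ _ h1 h2
          rw [FS_two x (-x) hxx, pair2] at h3
          have h6 : S + ({0, x} + {0, x} + {-x}) + FS (A.filter (fun a => a ≠ x ∧ a ≠ -x)) id =
              (S + {0, x} + {0, x} + FS (A.filter (fun a => a ≠ x ∧ a ≠ -x)) id) + {-x} := by
            abel
          rw [h6] at h3
          rw [h3] at hap ⊢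
          rw [card_shift]
          have hap' := Aper_shift hap
          have h4 := congrArg Finset.card h1
          rw [card_union_of_disjoint h2, card_pair hxx] at h4
          have hap1 : Aper (S + {0, x} + FS (A.filter (fun a => a ≠ x ∧ a ≠ -x)) id) := by
            have h7 : S + {0, x} + {0, x} + FS (A.filter (fun a => a ≠ x ∧ a ≠ -x)) id =
                (S + {0, x} + FS (A.filter (fun a => a ≠ x ∧ a ≠ -x)) id) + {0, x} := by abel
            rw [h7] at hap'
            exact ((all_Kn G).2.2.1 _ _ (hS1.add ⟨0, zero_mem_FS _ _⟩)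
              (insert_nonempty _ _) hap').1
          have h5 := (hnper1 _ (by omega) hap1).2
          rw [Bool.or_eq_true] at h5
          rcases h5 with h5 | h5
          · exact (hbad _ _ (by omega) hap' (per_sound hN2 hP h5)).elim
          · exact ih (k' + 1) (m + 2) _ _ hN2 hS2 hrest (by omega) hap' h5
      · have hxx : x ≠ -x := by
          intro h
          rw [← h] at hyA
          exact hyA hxA
        have h1 : A = {x} ∪ A.filter (fun a => a ≠ x ∧ a ≠ -x) := by
          ext a
          rw [mem_union, mem_singleton, mem_filter]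
          constructor
          · intro ha
            by_cases h2 : a = x
            · exact Or.inl h2
            · exact Or.inr ⟨ha, h2, fun h3 => hyA (h3 ▸ ha)⟩
          · rintro (rfl | h2)
            · exact hxA
            · exact h2.1
        have h2 : Disjoint {x} (A.filter (fun a => a ≠ x ∧ a ≠ -x)) := by
          rw [disjoint_singleton_left, mem_filter]
          rintro ⟨-, h3, -⟩
          exact h3 rfl
        have h3 := hsplit _ _ h1 h2
        rw [FS_single] at h3
        rw [h3] at hap ⊢
        have h4 := congrArg Finset.card h1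
        rw [card_union_of_disjoint h2, card_singleton] at h4
        have h5 := hnper1 _ (by omega) hap
        exact ih (k + 1) (m + 1) _ _ hN1 hS1 hrest (by omega) hap h5.1
    · by_cases hyA : -x ∈ A
      · have h1 : A = {-x} ∪ A.filter (fun a => a ≠ x ∧ a ≠ -x) := by
          ext a
          rw [mem_union, mem_singleton, mem_filter]
          constructor
          · intro ha
            by_cases h2 : a = -x
            · exact Or.inl h2
            · exact Or.inr ⟨ha, fun h3 => hxA (h3 ▸ ha), h2⟩
          · rintro (rfl | h2)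
            · exact hyA
            · exact h2.1
        have h2 : Disjoint {-x} (A.filter (fun a => a ≠ x ∧ a ≠ -x)) := by
          rw [disjoint_singleton_left, mem_filter]
          rintro ⟨-, -, h3⟩
          exact h3 rfl
        have h3 := hsplit _ _ h1 h2
        rw [FS_single, pair1] at h3
        have h6 : S + ({0, x} + {-x}) + FS (A.filter (fun a => a ≠ x ∧ a ≠ -x)) id =
            (S + {0, x} + FS (A.filter (fun a => a ≠ x ∧ a ≠ -x)) id) + {-x} := by
          abel
        rw [h6] at h3
        rw [h3] at hap ⊢
        rw [card_shift]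
        have hap' := Aper_shift hap
        have h4 := congrArg Finset.card h1
        rw [card_union_of_disjoint h2, card_singleton] at h4
        have h5 := hnper1 _ (by omega) hap'
        exact ih (k + 1) (m + 1) _ _ hN1 hS1 hrest (by omega) hap' h5.1
      · have h1 : A.filter (fun a => a ≠ x ∧ a ≠ -x) = A := by
          apply filter_true_of_mem
          intro a ha
          exact ⟨fun h => hxA (h ▸ ha), fun h => hyA (h ▸ ha)⟩
        rw [h1] at hrest
        exact ih N m S A hS hSne hrest hm hap hd1

end sound

end Pool.Agent.SNS
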