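import Pool.Agent.SNS.Bf

/-!
# SNS, module Sg (helper22): the search in `Z_3 × Z_3`, `Z_4 × Z_4`, `Z_2 × Z_8`, `Z_2 × Z_16`
-/

set_option autoImplicit false

noncomputable section

open Finset Pool.Agent.Helper64.Rho Pool.Agent.SDG

namespace Pool.Agent.SNS

/-- the index of an element -/
def ix (a b : ℕ) (g : ZMod a × ZMod b) : ℕ := g.1.val * b + g.2.val

/-- `tab` describes the translation by `x`, decidable form -/
def TK (a b : ℕ) (x : ZMod a × ZMod b) (tab : Tab) : Prop := ∀ h : ZMod a × ZMod b,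
  (∃ p ∈ tab, p.2.1 ≤ ix a b h + p.2.2 ∧ ix a b h + p.2.2 - p.2.1 = ix a b (h - x) ∧
    p.1.testBit (ix a b (h - x)) = true) ∧
  ∀ p ∈ tab, p.2.1 ≤ ix a b h + p.2.2 → p.1.testBit (ix a b h + p.2.2 - p.2.1) = true →
    ix a b h + p.2.2 - p.2.1 = ix a b (h - x)

instance (a b : ℕ) [NeZero a] [NeZero b] (x : ZMod a × ZMod b) (tab : Tab) :
    Decidable (TK a b x tab) := by
  unfold TK
  infer_instance

/-- one element of every pair `{x, -x}` -/
def X3_3 : List (ZMod 3 × ZMod 3) :=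
  [(0, 1), (1, 0), (1, 1), (1, 2)]

/-- the translations by the elements of `X` -/
def L3_3 : List Tab :=
  [[(292, 0, 2), (219, 1, 0)],
   [(448, 0, 6), (63, 3, 0)],
   [(256, 0, 8), (192, 0, 5), (36, 1, 0), (27, 4, 0)],
   [(384, 0, 7), (64, 0, 4), (54, 2, 0), (9, 5, 0)]]

/-- one generator of every subgroup of prime order -/
def Y3_3 : List (ZMod 3 × ZMod 3) :=
  [(0, 1), (1, 0), (1, 1), (1, 2)]

/-- the translations by the elements of `Y` -/
def P3_3 : List Tab :=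
  [[(292, 0, 2), (219, 1, 0)],
   [(448, 0, 6), (63, 3, 0)],
   [(256, 0, 8), (192, 0, 5), (36, 1, 0), (27, 4, 0)],
   [(384, 0, 7), (64, 0, 4), (54, 2, 0), (9, 5, 0)]]

/-- one element of every pair `{x, -x}` -/
def X4_4 : List (ZMod 4 × ZMod 4) :=
  [(0, 1), (1, 0), (1, 1), (1, 2), (1, 3), (2, 1)]

/-- the translations by the elements of `X` -/
def L4_4 : List Tab :=
  [[(34952, 0, 3), (30583, 1, 0)],
   [(61440, 0, 12), (4095, 4, 0)],
   [(32768, 0, 15), (28672, 0, 11), (2184, 1, 0), (1911, 5, 0)],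
   [(49152, 0, 14), (12288, 0, 10), (3276, 2, 0), (819, 6, 0)],
   [(57344, 0, 13), (4096, 0, 9), (3822, 3, 0), (273, 7, 0)],
   [(34816, 0, 11), (30464, 0, 7), (136, 5, 0), (119, 9, 0)]]

/-- one generator of every subgroup of prime order -/
def Y4_4 : List (ZMod 4 × ZMod 4) :=
  [(0, 2), (2, 0), (2, 2)]

/-- the translations by the elements of `Y` -/
def P4_4 : List Tab :=
  [[(52428, 0, 2), (13107, 2, 0)],
   [(65280, 0, 8), (255, 8, 0)],
   [(52224, 0, 10), (13056, 0, 6), (204, 6, 0), (51, 10, 0)]]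

/-- one element of every pair `{x, -x}` -/
def X2_8 : List (ZMod 2 × ZMod 8) :=
  [(0, 1), (0, 2), (0, 3), (1, 1), (1, 2), (1, 3)]

/-- the translations by the elements of `X` -/
def L2_8 : List Tab :=
  [[(32896, 0, 7), (32639, 1, 0)],
   [(49344, 0, 6), (16191, 2, 0)],
   [(57568, 0, 5), (7967, 3, 0)],
   [(32768, 0, 15), (32512, 0, 7), (128, 1, 0), (127, 9, 0)],
   [(49152, 0, 14), (16128, 0, 6), (192, 2, 0), (63, 10, 0)],
   [(57344, 0, 13), (7936, 0, 5), (224, 3, 0), (31, 11, 0)]]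

/-- one generator of every subgroup of prime order -/
def Y2_8 : List (ZMod 2 × ZMod 8) :=
  [(0, 4), (1, 0), (1, 4)]

/-- the translations by the elements of `Y` -/
def P2_8 : List Tab :=
  [[(61680, 0, 4), (3855, 4, 0)],
   [(65280, 0, 8), (255, 8, 0)],
   [(61440, 0, 12), (3840, 0, 4), (240, 4, 0), (15, 12, 0)]]

/-- one element of every pair `{x, -x}` -/
def X2_16 : List (ZMod 2 × ZMod 16) :=
  [(0, 1), (0, 2), (0, 3), (0, 4), (0, 5), (0, 6), (0, 7), (1, 1), (1, 2), (1, 3), (1, 4), (1, 5), (1, 6), (1, 7)]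

/-- the translations by the elements of `X` -/
def L2_16 : List Tab :=
  [[(2147516416, 0, 15), (2147450879, 1, 0)],
   [(3221274624, 0, 14), (1073692671, 2, 0)],
   [(3758153728, 0, 13), (536813567, 3, 0)],
   [(4026593280, 0, 12), (268374015, 4, 0)],
   [(4160813056, 0, 11), (134154239, 5, 0)],
   [(4227922944, 0, 10), (67044351, 6, 0)],
   [(4261477888, 0, 9), (33489407, 7, 0)],
   [(2147483648, 0, 31), (2147418112, 0, 15), (32768, 1, 0), (32767, 17, 0)],
   [(3221225472, 0, 30), (1073676288, 0, 14), (49152, 2, 0), (16383, 18, 0)],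
   [(3758096384, 0, 29), (536805376, 0, 13), (57344, 3, 0), (8191, 19, 0)],
   [(4026531840, 0, 28), (268369920, 0, 12), (61440, 4, 0), (4095, 20, 0)],
   [(4160749568, 0, 27), (134152192, 0, 11), (63488, 5, 0), (2047, 21, 0)],
   [(4227858432, 0, 26), (67043328, 0, 10), (64512, 6, 0), (1023, 22, 0)],
   [(4261412864, 0, 25), (33488896, 0, 9), (65024, 7, 0), (511, 23, 0)]]

/-- one generator of every subgroup of prime order -/
def Y2_16 : List (ZMod 2 × ZMod 16) :=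
  [(0, 8), (1, 0), (1, 8)]

/-- the translations by the elements of `Y` -/
def P2_16 : List Tab :=
  [[(4278255360, 0, 8), (16711935, 8, 0)],
   [(4294901760, 0, 16), (65535, 16, 0)],
   [(4278190080, 0, 24), (16711680, 0, 8), (65280, 8, 0), (255, 24, 0)]]

theorem chk_X3_3 : List.Forall₂ (TK 3 3) X3_3 L3_3 := by decide +kernel

theorem chk_Y3_3 : List.Forall₂ (TK 3 3) Y3_3 P3_3 := by decide +kernel

theorem chk_Z3_3 : ∀ y ∈ Y3_3, y ≠ 0 := by decide +kernel

theorem chk_C3_3 : ∀ g : ZMod 3 × ZMod 3, g ≠ 0 → g ≠ -g →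
    ∃ x ∈ X3_3, g = x ∨ g = -x := by decide +kernel

theorem chk_X4_4 : List.Forall₂ (TK 4 4) X4_4 L4_4 := by decide +kernel

theorem chk_Y4_4 : List.Forall₂ (TK 4 4) Y4_4 P4_4 := by decide +kernel

theorem chk_Z4_4 : ∀ y ∈ Y4_4, y ≠ 0 := by decide +kernel

theorem chk_C4_4 : ∀ g : ZMod 4 × ZMod 4, g ≠ 0 → g ≠ -g →
    ∃ x ∈ X4_4, g = x ∨ g = -x := by decide +kernel

theorem chk_X2_8 : List.Forall₂ (TK 2 8) X2_8 L2_8 := by decide +kernel

theorem chk_Y2_8 : List.Forall₂ (TK 2 8) Y2_8 P2_8 := by decide +kernel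

theorem chk_Z2_8 : ∀ y ∈ Y2_8, y ≠ 0 := by decide +kernel

theorem chk_C2_8 : ∀ g : ZMod 2 × ZMod 8, g ≠ 0 → g ≠ -g →
    ∃ x ∈ X2_8, g = x ∨ g = -x := by decide +kernel

theorem chk_X2_16 : List.Forall₂ (TK 2 16) X2_16 L2_16 := by decide +kernel

theorem chk_Y2_16 : List.Forall₂ (TK 2 16) Y2_16 P2_16 := by decide +kernel

theorem chk_Z2_16 : ∀ y ∈ Y2_16, y ≠ 0 := by decide +kernel

theorem chk_C2_16 : ∀ g : ZMod 2 × ZMod 16, g ≠ 0 → g ≠ -g →
    ∃ x ∈ X2_16, g = x ∨ g = -x := by decide +kernel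

theorem run_3_3_4 : dfs 9 4 7 7 P3_3 L3_3 1 0 = true := by decide +kernel

theorem run_4_4_5 : dfs 16 5 10 11 P4_4 L4_4 1 0 = true := by decide +kernel

theorem run_4_4_6 : dfs 16 6 13 14 P4_4 L4_4 1 0 = true := by decide +kernel

theorem run_2_8_6 : dfs 16 6 13 13 P2_8 L2_8 1 0 = true := by decide +kernel

theorem run_2_16_10 : dfs 32 10 31 31 P2_16 L2_16 1 0 = true := by decide +kernel

end Pool.Agent.SNS
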