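import Pool.Agent.SNS.Sg

/-!
# SNS, module Tp (helper22): transport of the search to a group with two generators; examples
-/

set_option autoImplicit false

noncomputable section

open Finset Pool.Agent.Helper64.Rho Pool.Agent.SDG
open scoped Classical Pointwise

namespace Pool.Agent.SNS

theorem ix_inj (a b : ℕ) [NeZero a] [NeZero b] : Function.Injective (ix a b) := by
  rintro ⟨x, y⟩ ⟨x', y'⟩ h
  unfold ix at h
  simp only at h
  have h1 := ZMod.val_lt y
  have h2 := ZMod.val_lt y'
  have hb : 0 < b := Nat.pos_of_ne_zero (NeZero.ne b)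
  have h3 : x.val = x'.val := by
    have h4 : (x.val * b + y.val) / b = (x'.val * b + y'.val) / b := by rw [h]
    rw [mul_comm, Nat.mul_add_div hb, mul_comm, Nat.mul_add_div hb, Nat.div_eq_of_lt h1,
      Nat.div_eq_of_lt h2] at h4
    omega
  have h4 : y.val = y'.val := by
    rw [h3] at h
    omega
  rw [ZMod.val_injective a h3, ZMod.val_injective b h4]

theorem ix_lt (a b : ℕ) [NeZero a] [NeZero b] (g : ZMod a × ZMod b) : ix a b g < a * b := by
  unfold ix
  have h1 := ZMod.val_lt g.1
  have h2 := ZMod.val_lt g.2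
  calc g.1.val * b + g.2.val < g.1.val * b + b := Nat.add_lt_add_left h2 _
    _ = (g.1.val + 1) * b := by ring
    _ ≤ a * b := Nat.mul_le_mul_right _ h1

theorem ix_surj (a b : ℕ) [NeZero a] [NeZero b] (i : ℕ) (hi : i < a * b) :
    ∃ g, ix a b g = i := by
  have hb : 0 < b := Nat.pos_of_ne_zero (NeZero.ne b)
  have h1 : i / b < a := Nat.div_lt_of_lt_mul (by rw [mul_comm]; exact hi)
  have h2 : i % b < b := Nat.mod_lt _ hb
  refine ⟨(((i / b : ℕ) : ZMod a), ((i % b : ℕ) : ZMod b)), ?_⟩
  unfold ix
  rw [ZMod.val_cast_of_lt h1, ZMod.val_cast_of_lt h2]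
  exact Nat.div_add_mod' i b

section tp

variable {a b : ℕ} [NeZero a] [NeZero b] {G : Type} [AddCommGroup G] [Finite G]
  (e' : G ≃+ ZMod a × ZMod b)

theorem tp_ok (x : ZMod a × ZMod b) (tab : Tab) (h : TK a b x tab) :
    TabOK (fun g => ix a b (e' g)) (e'.symm x) tab := by
  intro g
  have h1 := h (e' g)
  have h2 : e' (g - e'.symm x) = e' g - x := by
    rw [map_sub, AddEquiv.apply_symm_apply]
  refine ⟨?_, ?_⟩
  · obtain ⟨p, hp, h3, h4, h5⟩ := h1.1
    rw [← h2] at h4 h5
    exact ⟨p, hp, h3, h4, h5⟩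
  · intro p hp h3 h4
    show _ = ix a b (e' (g - e'.symm x))
    rw [h2]
    exact h1.2 p hp h3 h4

theorem tp_forall {X : List (ZMod a × ZMod b)} {L : List Tab}
    (h : List.Forall₂ (TK a b) X L) :
    List.Forall₂ (TabOK (fun g => ix a b (e' g))) (X.map e'.symm) L := by
  induction h with
  | nil => exact List.Forall₂.nil
  | cons hx _ ih => exact List.Forall₂.cons (tp_ok e' _ _ hx) ih

theorem tp_mem {Y : List (ZMod a × ZMod b)} {P : List Tab} (h : List.Forall₂ (TK a b) Y P)
    (h0 : ∀ y ∈ Y, y ≠ 0) :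
    ∀ p ∈ P, ∃ g : G, g ≠ 0 ∧ TabOK (fun g => ix a b (e' g)) g p := by
  induction h with
  | nil =>
    intro p hp
    simp at hp
  | @cons y p Y P hy _ ih =>
    intro q hq
    rw [List.mem_cons] at hq
    rcases hq with rfl | hq
    · refine ⟨e'.symm y, ?_, tp_ok e' _ _ hy⟩
      intro h1
      apply h0 y (List.mem_cons_self ..)
      rw [← e'.apply_symm_apply y, h1, map_zero]
    · exact ih (fun z hz => h0 z (List.mem_cons_of_mem _ hz)) q hq

include e' in
/-- the search result for all sets `A` -/
theorem tp_main (t lo hi : ℕ) {X Y : List (ZMod a × ZMod b)} {L P : List Tab}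
    (hX : List.Forall₂ (TK a b) X L) (hY : List.Forall₂ (TK a b) Y P)
    (hY0 : ∀ y ∈ Y, y ≠ 0)
    (hC : ∀ g : ZMod a × ZMod b, g ≠ 0 → g ≠ -g → ∃ x ∈ X, g = x ∨ g = -x)
    (hd : dfs (a * b) t lo hi P L 1 0 = true) (A : Finset G) (h0 : (0 : G) ∉ A)
    (hA : Aper (FS A id)) (hc : A.card = t) :
    ¬ (lo ≤ (FS A id).card ∧ (FS A id).card ≤ hi) := by
  have h1 : ({0} : Finset G) + FS A id = FS A id := by
    rw [singleton_add]
    simp
  have hS : Rep (fun g => ix a b (e' g)) 1 ({0} : Finset G) := by
    intro g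
    rw [mem_singleton]
    show Nat.testBit 1 (ix a b (e' g)) = true ↔ g = 0
    have h2 : ix a b (0 : ZMod a × ZMod b) = 0 := by
      unfold ix
      simp
    have h3 : Nat.testBit 1 (ix a b (e' g)) = true ↔ ix a b (e' g) = 0 := by
      rcases Nat.eq_zero_or_pos (ix a b (e' g)) with h4 | h4
      · rw [h4]
        simp
      · constructor
        · intro h5
          rw [Nat.testBit_lt_two_pow (Nat.one_lt_two_pow (by omega))] at h5
          exact absurd h5 (by decide)
        · intro h5
          omega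
    rw [h3, ← h2, (ix_inj a b).eq_iff]
    exact ⟨fun h => by rw [← e'.symm_apply_apply g, h, map_zero], fun h => by rw [h, map_zero]⟩
  rw [← h1] at hA ⊢
  refine dfs_sound (e := fun g => ix a b (e' g)) (n := a * b) (P := P)
    (fun g g' h => e'.injective (ix_inj a b h)) (fun g => ix_lt a b _)
    (fun i hi => ?_) (tp_mem e' hY hY0) (X.map e'.symm) L (tp_forall e' hX) 1 0 {0} A hS
    (singleton_nonempty 0) ?_ (by rw [zero_add, hc]) hA hd
  · obtain ⟨g, hg⟩ := ix_surj a b i hi
    exact ⟨e'.symm g, by
      show ix a b (e' (e'.symm g)) = i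
      rw [e'.apply_symm_apply]
      exact hg⟩
  · intro x hx
    have hx0 : x ≠ 0 := fun h => h0 (h ▸ hx)
    have hxn : x ≠ -x := by
      rw [h1] at hA
      exact (all_Ba1 G G id).2.2.2.2.1 A x hx hA hx0
    obtain ⟨y, hy, hxy⟩ := hC (e' x) (fun h => hx0 (by
      rw [← e'.symm_apply_apply x, h, map_zero])) (fun h => hxn (by
      rw [← map_neg] at h
      exact e'.injective h))
    refine ⟨e'.symm y, List.mem_map_of_mem hy, ?_⟩
    rcases hxy with h | h
    · left
      rw [← h, e'.symm_apply_apply]
    · right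
      rw [← map_neg, ← h, e'.symm_apply_apply]

end tp

/-! ### examples -/

/-- the mask of the sums of a list of elements -/
def sq : List Tab → ℕ → ℕ
  | [], N => N
  | (p :: l), N => sq l (N ||| tr p N)

theorem sq_rep {G : Type} [AddCommGroup G] [Finite G] {e : G → ℕ} :
    ∀ (Z : List G) (L : List Tab), List.Forall₂ (TabOK e) Z L → Z.Nodup → ∀ (N : ℕ)
      (B : Finset G), Rep e N (FS B id) → (∀ z ∈ Z, z ∉ B) →
      Rep e (sq L N) (FS (B ∪ Z.toFinset) id) := by
  intro Z L h
  induction h with
  | nil =>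
    intro _ N B hB _
    simpa [sq] using hB
  | @cons z p Z L hz _ ih =>
    intro hnd N B hB hZB
    rw [List.nodup_cons] at hnd
    have h1 : FS (insert z B) id = FS B id + {0, z} := by
      have h2 : insert z B = B ∪ {z} := by
        ext y
        simp [or_comm]
      rw [h2, (all_Ba1 G G id).1 B {z} (by
        rw [disjoint_singleton_right]
        exact hZB z (List.mem_cons_self ..)), FS_single]
    have h2 := or_rep hz hB
    rw [← h1] at h2
    have h3 := ih hnd.2 _ _ h2 (by
      intro y hy
      rw [mem_insert, not_or]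
      refine ⟨fun h => hnd.1 (h ▸ hy), hZB y (List.mem_cons_of_mem _ hy)⟩)
    have h4 : insert z B ∪ Z.toFinset = B ∪ (z :: Z).toFinset := by
      ext y
      simp only [mem_union, mem_insert, List.mem_toFinset, List.mem_cons]
      tauto
    rw [h4] at h3
    exact h3

/-- an explicit set with `v` sums -/
theorem tp_ex {a b : ℕ} [NeZero a] [NeZero b] {G : Type} [AddCommGroup G] [Finite G]
    (e' : G ≃+ ZMod a × ZMod b) (v : ℕ) (Z : List (ZMod a × ZMod b)) (L : List Tab)
    (hZ : List.Forall₂ (TK a b) Z L) (hnd : Z.Nodup) (h0 : (0 : ZMod a × ZMod b) ∉ Z)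
    (hv : pc (a * b) (sq L 1) = v) (hv2 : a * b < 2 * v) :
    ∃ A : Finset G, (0 : G) ∉ A ∧ A.card = Z.length ∧
      AddSubgroup.closure (A : Set G) = ⊤ ∧ (FS A id).card = v := by
  have hinj : Function.Injective e'.symm := e'.symm.injective
  have hnd' : (Z.map e'.symm).Nodup := hnd.map hinj
  have hB : Rep (fun g => ix a b (e' g)) 1 (FS (∅ : Finset G) id) := by
    intro g
    rw [FS_empty, mem_singleton]
    show Nat.testBit 1 (ix a b (e' g)) = true ↔ g = 0
    have h2 : ix a b (0 : ZMod a × ZMod b) = 0 := by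
      unfold ix
      simp
    have h3 : Nat.testBit 1 (ix a b (e' g)) = true ↔ ix a b (e' g) = 0 := by
      rcases Nat.eq_zero_or_pos (ix a b (e' g)) with h4 | h4
      · rw [h4]
        simp
      · constructor
        · intro h5
          rw [Nat.testBit_lt_two_pow (Nat.one_lt_two_pow (by omega))] at h5
          exact absurd h5 (by decide)
        · intro h5
          omega
    rw [h3, ← h2, (ix_inj a b).eq_iff]
    exact ⟨fun h => by rw [← e'.symm_apply_apply g, h, map_zero], fun h => by rw [h, map_zero]⟩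
  have hR := sq_rep (Z.map e'.symm) L (tp_forall e' hZ) hnd' 1 ∅ hB (by simp)
  rw [empty_union] at hR
  have hcard : (FS (Z.map e'.symm).toFinset id).card = v := by
    rw [← hv]
    symm
    refine pc_card (e := fun g => ix a b (e' g))
      (fun g g' h => e'.injective (ix_inj a b h)) (fun g => ix_lt a b _)
      (fun i hi => ?_) hR
    obtain ⟨g, hg⟩ := ix_surj a b i hi
    exact ⟨e'.symm g, by
      show ix a b (e' (e'.symm g)) = i
      rw [e'.apply_symm_apply]
      exact hg⟩
  refine ⟨(Z.map e'.symm).toFinset, ?_, ?_, ?_, hcard⟩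
  · rw [List.mem_toFinset, List.mem_map]
    rintro ⟨z, hz, h1⟩
    apply h0
    have h2 : z = 0 := by
      rw [← e'.apply_symm_apply z, h1, map_zero]
    rwa [h2] at hz
  · rw [List.toFinset_card_of_nodup hnd', List.length_map]
  · -- more than half of the elements
    have hG : Nat.card G = a * b := by
      rw [Nat.card_congr e'.toEquiv, Nat.card_prod, Nat.card_zmod, Nat.card_zmod]
    obtain ⟨m, hm⟩ := AddSubgroup.card_addSubgroup_dvd_card
      (AddSubgroup.closure (((Z.map e'.symm).toFinset : Finset G) : Set G))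
    have h3 : v ≤ Nat.card (AddSubgroup.closure (((Z.map e'.symm).toFinset : Finset G) : Set G)) := by
      rw [← hcard]
      have h5 : ∀ x ∈ FS (Z.map e'.symm).toFinset id,
          x ∈ AddSubgroup.closure (((Z.map e'.symm).toFinset : Finset G) : Set G) := by
        intro x hx
        refine FS_subset_of_mem ?_ hx
        intro i hi
        exact AddSubgroup.subset_closure (mem_coe.2 hi)
      have h6 : Set.ncard ((FS (Z.map e'.symm).toFinset id : Finset G) : Set G) ≤
          Set.ncard (AddSubgroup.closure (((Z.map e'.symm).toFinset : Finset G) : Set G) : Set G) :=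
        Set.ncard_le_ncard (fun x hx => h5 x (mem_coe.1 hx)) (Set.toFinite _)
      rw [Set.ncard_coe_finset] at h6
      exact h6
    apply AddSubgroup.eq_top_of_card_eq
    have h4 : m = 1 := by
      by_contra hne
      rcases Nat.lt_or_ge m 1 with h5 | h5
      · have h6 : m = 0 := by omega
        rw [h6, mul_zero, hG] at hm
        have : 0 < a * b := Nat.mul_pos (Nat.pos_of_ne_zero (NeZero.ne a))
          (Nat.pos_of_ne_zero (NeZero.ne b))
        omega
      · have h7 : 2 ≤ m := by omega
        have h8 := Nat.mul_le_mul h3 h7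
        rw [← hm, hG] at h8
        omega
    rw [h4, mul_one] at hm
    exact hm.symm

end Pool.Agent.SNS
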